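import Pool.Agent.Helper32_NJ.Stmts

set_option autoImplicit false

/-!
# Module DMB (squad NJ): descent for the curve of the recipe L, second sign
-/

namespace Pool.Agent.NJ.H63

theorem recL_facts {p₁ p₂ p₃ : ℕ} (h : RecL p₁ p₂ p₃) :
    Prime (p₁ : ℤ) ∧ ¬ (p₁ : ℤ) ∣ 2 ∧ ¬ (p₁ : ℤ) ∣ p₂ ∧ ¬ (p₁ : ℤ) ∣ p₃ := by
  have hp : Prime (p₁ : ℤ) := Nat.prime_iff_prime_int.1 h.pr1
  have h3 : ¬ (p₁ : ℤ) ∣ p₃ := by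
    intro h'
    have h'' : p₁ ∣ p₃ := Int.natCast_dvd_natCast.1 h'
    exact h.ne ((Nat.prime_dvd_prime_iff_eq h.pr1 h.pr3).1 h'')
  refine ⟨hp, ?_, ?_, h3⟩
  · intro h'
    have h'' : p₁ ∣ 2 := by exact_mod_cast h'
    have := (Nat.prime_dvd_prime_iff_eq h.pr1 Nat.prime_two).1 h''
    have := h.m1
    omega
  · intro h'
    apply h3
    have e : (p₃ : ℤ) = p₂ - 2 * p₁ := by
      have := h.h2
      rw [this]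
      push_cast
      ring
    rw [e]
    exact dvd_sub h' (Dvd.intro_left _ rfl)

/-- DMB. -/
theorem dmb (dma : DMAStmt) (nrm : NRMStmt) (crit : CRITStmt) : DMBStmt := by
  intro p₁ p₂ p₃ h
  obtain ⟨hp, n2, n22, n3⟩ := recL_facts h
  have z1 : (0 : ℤ) < p₁ := by exact_mod_cast h.pr1.pos
  have z2 : (0 : ℤ) < p₂ := by exact_mod_cast h.pr2.pos
  have z3 : (0 : ℤ) < p₃ := by exact_mod_cast h.pr3.pos
  have e2n : (-4 * p₁ ^ 2 * p₂ * p₃ : ℤ) < 0 := by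
    have : (0 : ℤ) < p₁ ^ 2 * p₂ * p₃ := by positivity
    nlinarith
  have e3p : (0 : ℤ) < 2 * p₁ * p₂ * p₃ ^ 2 := by positivity
  have o1 : (p₁ : ℤ) % 2 = 1 := by have := h.m1; omega
  have o3 : (p₃ : ℤ) % 2 = 1 := by have := h.m3; omega
  have o2 : (p₂ : ℤ) % 2 = 1 := by have := h.h2; omega
  have key := crit (-4 * p₁ ^ 2 * p₂ * p₃) (2 * p₁ * p₂ * p₃ ^ 2) e2n.ne e3p.ne'
    (by linarith [e2n, e3p] : (-4 * p₁ ^ 2 * p₂ * p₃ : ℤ) < 2 * p₁ * p₂ * p₃ ^ 2).ne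
    (Or.inr ⟨?_, ⟨-(p₁ ^ 2 * p₂ * p₃), by ring⟩⟩) ?_
  · have e : ((-4 * (p₁ : ℤ) ^ 2 * p₂ * p₃ : ℤ) : ℚ) = -4 * (p₁ : ℚ) ^ 2 * p₂ * p₃ := by
      push_cast
      ring
    have e' : ((2 * (p₁ : ℤ) * p₂ * p₃ ^ 2 : ℤ) : ℚ) = 2 * (p₁ : ℚ) * p₂ * p₃ ^ 2 := by
      push_cast
      ring
    rw [e, e'] at key
    exact key
  · obtain ⟨a, ha⟩ : ∃ a : ℤ, (p₁ : ℤ) * p₂ * p₃ ^ 2 = 2 * a + 1 := by
      have h4 : Odd ((p₁ : ℤ) * p₂ * p₃ ^ 2) :=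
        ((Int.odd_iff.2 o1).mul (Int.odd_iff.2 o2)).mul ((Int.odd_iff.2 o3).pow)
      exact h4
    have e : (2 * (p₁ : ℤ) * p₂ * p₃ ^ 2) = 4 * a + 2 := by
      calc (2 * (p₁ : ℤ) * p₂ * p₃ ^ 2) = 2 * ((p₁ : ℤ) * p₂ * p₃ ^ 2) := by ring
        _ = 2 * (2 * a + 1) := by rw [ha]
        _ = 4 * a + 2 := by ring
    rw [e]
    omega
  · refine nrm (-4 * p₁ ^ 2 * p₂ * p₃) (2 * p₁ * p₂ * p₃ ^ 2) p₁ h.pr1
      (by linarith [e2n, e3p] : (-4 * p₁ ^ 2 * p₂ * p₃ : ℤ) < 2 * p₁ * p₂ * p₃ ^ 2).ne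
      ⟨-4 * p₂ * p₃, by ring⟩ ?_ ⟨2 * p₂ * p₃ ^ 2, by ring⟩ ?_ (dma p₁ p₂ p₃ h)
    · intro hd
      have hd' : (p₁ : ℤ) ^ 2 * p₁ ∣ (p₁ : ℤ) ^ 2 * (-(2 * 2) * p₂ * p₃) := by
        have e1 : (p₁ : ℤ) ^ 2 * p₁ = (p₁ : ℤ) ^ 3 := by ring
        have e2 : (p₁ : ℤ) ^ 2 * (-(2 * 2) * p₂ * p₃) = -4 * p₁ ^ 2 * p₂ * p₃ := by ring
        rw [e1, e2]
        exact hd
      have h5 := (mul_dvd_mul_iff_left (pow_ne_zero 2 z1.ne')).1 hd'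
      rcases hp.dvd_or_dvd h5 with h6 | h6
      · rcases hp.dvd_or_dvd h6 with h7 | h7
        · rw [dvd_neg] at h7
          rcases hp.dvd_or_dvd h7 with h8 | h8 <;> exact n2 h8
        · exact n22 h7
      · exact n3 h6
    · intro hd
      have hd' : (p₁ : ℤ) * p₁ ∣ (p₁ : ℤ) * (2 * p₂ * p₃ ^ 2) := by
        have e1 : (p₁ : ℤ) * p₁ = (p₁ : ℤ) ^ 2 := by ring
        have e2 : (p₁ : ℤ) * (2 * p₂ * p₃ ^ 2) = 2 * p₁ * p₂ * p₃ ^ 2 := by ring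
        rw [e1, e2]
        exact hd
      have h5 := (mul_dvd_mul_iff_left z1.ne').1 hd'
      rcases hp.dvd_or_dvd h5 with h6 | h6
      · rcases hp.dvd_or_dvd h6 with h7 | h7
        · exact n2 h7
        · exact n22 h7
      · exact n3 (hp.dvd_of_dvd_pow h6)

end Pool.Agent.NJ.H63
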