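import Pool.Agent.Helper32_NJ.Stmts

set_option autoImplicit false

/-!
# Module EXL (squad NJ): existence of the primes of the recipe L
-/

namespace Pool.Agent.NJ.H63

/-- EXL. -/
theorem exl (an : ANStmt) : EXLStmt := by
  intro N
  obtain ⟨p, q, l, hp, hq, hl, hNp, -, hne, h1, h2, h3⟩ := an 2 1 3 5 8
    ⟨0, 1, by norm_num⟩ (by norm_num) (by norm_num) (by norm_num) (by norm_num)
    ⟨3, -1, by norm_num⟩ ⟨-3, 2, by norm_num⟩ ⟨3, -4, by norm_num⟩ (Or.inl (by norm_num)) N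
  refine ⟨p, l, q, ⟨hp, hl, hq, ?_, ?_, ?_, hne⟩, hNp⟩
  · have h : (p : ℤ) % 8 = 3 % 8 := h1
    omega
  · have h : (q : ℤ) % 8 = 5 % 8 := h2
    omega
  · omega

end Pool.Agent.NJ.H63
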