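import Pool.Agent.Helper32_NJ.Stmts

set_option autoImplicit false

/-!
# Module SUP (squad NJ): supports of the classes
-/

namespace Pool.Agent.NJ.H63

/-- The valuation of a squarefree integer times a square. -/
theorem vpar (p : ℕ) [hp : Fact p.Prime] (d A : ℤ) (hd : Squarefree d) (h0 : d * A ^ 2 ≠ 0) :
    padicValInt p (d * A ^ 2) % 2 = 1 ↔ (p : ℤ) ∣ d := by
  have hd0 : d ≠ 0 := left_ne_zero_of_mul h0
  have hA0 : A ^ 2 ≠ 0 := right_ne_zero_of_mul h0
  have hA : A ≠ 0 := fun h => hA0 (by rw [h]; ring)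
  have e1 : padicValInt p (d * A ^ 2) = padicValInt p d + 2 * padicValInt p A := by
    rw [padicValInt.mul hd0 hA0, pow_two, padicValInt.mul hA hA]
    ring
  rw [e1]
  have e2 : (p : ℤ) ∣ d ↔ 1 ≤ padicValInt p d := by
    have h := padicValInt_dvd_iff (p := p) 1 d
    rw [pow_one] at h
    rw [h]
    simp [hd0]
  have e3 : padicValInt p d ≤ 1 := by
    by_contra hcon
    push Not at hcon
    have h := (padicValInt_dvd_iff (p := p) 2 d).2 (Or.inr hcon)
    have h2 : (p : ℤ) * p ∣ d := by rw [← pow_two]; exact h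
    have h3 := hd _ h2
    have h4 : (p : ℤ).natAbs = 1 := Int.isUnit_iff_natAbs_eq.1 h3
    have h5 := hp.out.one_lt
    simp at h4
    omega
  rw [e2]
  omega

theorem vdvd (p : ℕ) [hp : Fact p.Prime] (n : ℤ) (h0 : n ≠ 0) :
    (p : ℤ) ∣ n ↔ 1 ≤ padicValInt p n := by
  have h := padicValInt_dvd_iff (p := p) 1 n
  rw [pow_one] at h
  rw [h]
  simp [h0]

/-- SUP. -/
theorem sup : SUPStmt := by
  intro e₂ e₃ d₁ d₂ r s w A B P p hp'
  have hp : Fact p.Prime := ⟨hp'⟩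
  have hpp : Prime (p : ℤ) := Nat.prime_iff_prime_int.1 hp'
  have hw2 : w ^ 2 ≠ 0 := pow_ne_zero 2 P.w0
  have hprod : r * (r - e₂ * s ^ 2) * (r - e₃ * s ^ 2) ≠ 0 := by rw [← P.eq]; exact hw2
  have h12 : r * (r - e₂ * s ^ 2) ≠ 0 := left_ne_zero_of_mul hprod
  have h1 : r ≠ 0 := left_ne_zero_of_mul h12
  have h2 : r - e₂ * s ^ 2 ≠ 0 := right_ne_zero_of_mul h12
  have h3 : r - e₃ * s ^ 2 ≠ 0 := right_ne_zero_of_mul hprod
  have hsum : padicValInt p r + padicValInt p (r - e₂ * s ^ 2) + padicValInt p (r - e₃ * s ^ 2) =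
      2 * padicValInt p w := by
    rw [← padicValInt.mul h1 h2, ← padicValInt.mul h12 h3, ← P.eq, pow_two,
      padicValInt.mul P.w0 P.w0]
    ring
  have o1 : padicValInt p r % 2 = 1 ↔ (p : ℤ) ∣ d₁ := by
    have := vpar p d₁ A P.sq1 (by rw [← P.h1]; exact h1)
    rwa [← P.h1] at this
  have o2 : padicValInt p (r - e₂ * s ^ 2) % 2 = 1 ↔ (p : ℤ) ∣ d₂ := by
    have := vpar p d₂ B P.sq2 (by rw [← P.h2]; exact h2)
    rwa [← P.h2] at this
  have v1 := vdvd p r h1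
  have v2 := vdvd p (r - e₂ * s ^ 2) h2
  have v3 := vdvd p (r - e₃ * s ^ 2) h3
  have hcop : ¬ ((p : ℤ) ∣ r ∧ (p : ℤ) ∣ s) := by
    rintro ⟨a, b⟩
    exact hpp.not_isUnit (P.cop.isUnit_of_dvd' a b)
  -- a divisor of `e s²`
  have hes : ∀ e : ℤ, ¬ (p : ℤ) ∣ s → (p : ℤ) ∣ e * s ^ 2 → (p : ℤ) ∣ e := by
    intro e hs h
    rcases hpp.dvd_or_dvd h with h | h
    · exact h
    · exact absurd (hpp.dvd_of_dvd_pow h) hs
  refine ⟨?_, ?_, ?_⟩
  · intro hd
    have hr : (p : ℤ) ∣ r := by rw [P.h1]; exact Dvd.dvd.mul_right hd _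
    have hs : ¬ (p : ℤ) ∣ s := fun h => hcop ⟨hr, h⟩
    have hodd := o1.2 hd
    by_cases c2 : (p : ℤ) ∣ r - e₂ * s ^ 2
    · left
      refine hes e₂ hs ?_
      have := dvd_sub hr c2
      rwa [sub_sub_cancel] at this
    · have z2 : ¬ 1 ≤ padicValInt p (r - e₂ * s ^ 2) := fun h => c2 (v2.2 h)
      have c3 : (p : ℤ) ∣ r - e₃ * s ^ 2 := v3.2 (by omega)
      right
      refine hes e₃ hs ?_
      have := dvd_sub hr c3
      rwa [sub_sub_cancel] at this
  · intro hd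
    have hr2 : (p : ℤ) ∣ r - e₂ * s ^ 2 := by rw [P.h2]; exact Dvd.dvd.mul_right hd _
    have hs : ¬ (p : ℤ) ∣ s := by
      intro h
      refine hcop ⟨?_, h⟩
      have h4 : (p : ℤ) ∣ e₂ * s ^ 2 := Dvd.dvd.mul_left (dvd_pow h two_ne_zero) _
      have := dvd_add hr2 h4
      rwa [sub_add_cancel] at this
    have hodd := o2.2 hd
    by_cases c1 : (p : ℤ) ∣ r
    · left
      refine hes e₂ hs ?_
      have := dvd_sub c1 hr2
      rwa [sub_sub_cancel] at this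
    · have z1 : ¬ 1 ≤ padicValInt p r := fun h => c1 (v1.2 h)
      have c3 : (p : ℤ) ∣ r - e₃ * s ^ 2 := v3.2 (by omega)
      right
      refine hes (e₂ - e₃) hs ?_
      have := dvd_sub c3 hr2
      have e : r - e₃ * s ^ 2 - (r - e₂ * s ^ 2) = (e₂ - e₃) * s ^ 2 := by ring
      rwa [e] at this
  · intro he2 he3
    have key : (p : ℤ) ∣ r → ((p : ℤ) ∣ d₁ ↔ (p : ℤ) ∣ d₂) := by
      intro hr
      have hs : ¬ (p : ℤ) ∣ s := fun h => hcop ⟨hr, h⟩
      have c3 : ¬ (p : ℤ) ∣ r - e₃ * s ^ 2 := by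
        intro h
        apply he3
        refine hes e₃ hs ?_
        have := dvd_sub hr h
        rwa [sub_sub_cancel] at this
      have z3 : ¬ 1 ≤ padicValInt p (r - e₃ * s ^ 2) := fun h => c3 (v3.2 h)
      rw [← o1, ← o2]
      omega
    have hr12 : (p : ℤ) ∣ r - e₂ * s ^ 2 → (p : ℤ) ∣ r := by
      intro h
      have h4 : (p : ℤ) ∣ e₂ * s ^ 2 := Dvd.dvd.mul_right he2 _
      have := dvd_add h h4
      rwa [sub_add_cancel] at this
    constructor
    · intro hd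
      have hr : (p : ℤ) ∣ r := by rw [P.h1]; exact Dvd.dvd.mul_right hd _
      exact (key hr).1 hd
    · intro hd
      have hr : (p : ℤ) ∣ r := hr12 (by rw [P.h2]; exact Dvd.dvd.mul_right hd _)
      exact (key hr).2 hd

end Pool.Agent.NJ.H63
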